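import Mathlib
import Pool.Agent.Q180.WT.StmB

/-!
# Project WT: scalar parts of the conjugates of the Hodge operator
-/

set_option linter.unusedSectionVars false

namespace Pool.Agent.Q211.WT

open Matrix Module Pool.Agent.H204R3.CM Pool.Agent.H194R3.CM Pool.Agent.W437.HC
  Pool.Agent.W437.HD Pool.Agent.W437.HQ Pool.Agent.W548.Odd Pool.Agent.TH125 Pool.Agent.Y4
  Pool.Agent.Y4.G

open Pool.Agent.Y4.H (LZ Ct map_smul_aut' D_mem_LZ Dσ_mem_LZ)
open Pool.Agent.Y4.K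

open scoped ComplexOrder

theorem memtr : Pool.Agent.Q180.WT.S_memtr := by
  intro g Z M hcop hsep N hN hsp htr
  obtain ⟨S, Si, H, hR⟩ := M.herm
  have hSiS := H.SiS
  have hSSi := H.SSi
  have hRi := M.Si_eq H hR
  obtain ⟨I, hI, ε, f1, f2, f3⟩ := M.exists_family
  obtain ⟨N1, hN1, horth⟩ := exists_proj H N
  have hce : ∀ d, Ct Z d → (N - N1) * d = d * (N - N1) := by
    intro d hd
    rw [sub_mul, mul_sub, hN d hd, hd _ hN1]
  have hcsp : (N - N1)ᵀ * Om g ℂ + Om g ℂ * (N - N1) = 0 := by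
    have h2 := M.sp_L hN1
    rw [transpose_sub, sub_mul, mul_sub]
    have h3 : Nᵀ * Om g ℂ - N1ᵀ * Om g ℂ + (Om g ℂ * N - Om g ℂ * N1) =
        (Nᵀ * Om g ℂ + Om g ℂ * N) - (N1ᵀ * Om g ℂ + Om g ℂ * N1) := by abel
    rw [h3, hsp, h2, sub_zero]
  have hex : ∀ j, ∃ lam : ℂ, (N - N1) * (ε j).e = lam • (ε j).e := fun j =>
    M.scalar_place (ε := ε) ⟨f1, f2, f3⟩ hcop hsep hce hcsp horth j
  obtain ⟨c, hc⟩ : ∃ c, c = N - N1 := ⟨_, rfl⟩
  rw [← hc] at hce hcsp horth hex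
  choose lam hlam using hex
  have hdag : ∀ j, (ε j).e * dag Z c = star (lam j) • (ε j).e := by
    intro j
    have h1 := congrArg (dag Z) (hlam j)
    rw [M.dag_mul, f1 j, Pol.dag_smul, f1 j] at h1
    exact h1
  have hd : dag Z c = ∑ j, star (lam j) • (ε j).e := by
    calc dag Z c = (∑ j, (ε j).e) * dag Z c := by rw [f3, one_mul]
    _ = _ := by
      rw [Finset.sum_mul]
      exact Finset.sum_congr rfl fun j _ => hdag j
  have h1 : trace (dag Z c * N) = 0 := by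
    rw [hd, Finset.sum_mul, trace_sum]
    refine Finset.sum_eq_zero fun j _ => ?_
    rw [Matrix.smul_mul, trace_smul, trace_mul_comm, htr, smul_zero]
  have h2 : trace (dag Z c * N1) = 0 := by
    have h3 := horth _ (H.adj N1 hN1)
    have h4 : dag Z N1 = Si * Siᴴ * N1ᴴ * (Sᴴ * S) := by
      unfold dag
      rw [← hRi, ← hR]
    rw [← h4] at h3
    have h5 : trace (dag Z c * N1) = star (trace (c * dag Z N1)) := by
      have h6 : (c * dag Z N1)ᴴ = Rm Z * N1 * Ri Z * cᴴ := by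
        unfold dag
        rw [conjTranspose_mul, conjTranspose_mul, conjTranspose_mul, conjTranspose_conjTranspose,
          M.RH, M.RiH]
        noncomm_ring
      rw [← trace_conjTranspose, h6]
      unfold dag
      rw [trace_mul_comm]
      have h7 : Rm Z * N1 * Ri Z * cᴴ = (Rm Z * N1) * (Ri Z * cᴴ) := by noncomm_ring
      have h8 : N1 * (Ri Z * cᴴ * Rm Z) = N1 * (Ri Z * cᴴ) * Rm Z := by noncomm_ring
      rw [h7, h8, mul_assoc, trace_mul_comm N1, trace_mul_comm (Rm Z * N1), mul_assoc]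
    rw [h5, h3, star_zero]
  have h3 : trace (dag Z c * c) = 0 := by
    nth_rewrite 2 [hc]
    rw [mul_sub, trace_sub, h1, h2, sub_zero]
  have h4 : c = 0 := by
    have h5 : trace ((S * c * Si)ᴴ * (S * c * Si)) = 0 := by
      rw [← h3]
      unfold dag
      rw [← hRi, ← hR, conjTranspose_mul, conjTranspose_mul]
      have h6 : Siᴴ * (cᴴ * Sᴴ) * (S * c * Si) = (Siᴴ * cᴴ * (Sᴴ * S) * c) * Si := by noncomm_ring
      have h7 : Si * Siᴴ * cᴴ * (Sᴴ * S) * c = Si * (Siᴴ * cᴴ * (Sᴴ * S) * c) := by noncomm_ring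
      rw [h6, h7, trace_mul_comm]
    have h6 : S * c * Si = 0 := trace_conjTranspose_mul_self_eq_zero_iff.1 h5
    calc c = (Si * S) * c * (Si * S) := by rw [hSiS, one_mul, mul_one]
    _ = Si * (S * c * Si) * S := by noncomm_ring
    _ = 0 := by rw [h6, mul_zero, zero_mul]
  rw [h4] at hc
  rw [← sub_eq_zero.1 hc.symm] at hN1
  exact hN1

theorem tor : Pool.Agent.Q180.WT.S_tor := by
  intro g Z M hcop hsep σ
  obtain ⟨I, hI, ε, f1, f2, f3⟩ := M.exists_family
  obtain ⟨D, hD⟩ : ∃ D, D = (DZ Z).map (σ : ℂ →+* ℂ) := ⟨_, rfl⟩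
  have hDL : D ∈ LZ Z := by
    rw [hD]
    exact Dσ_mem_LZ σ
  have hDc : ∀ d, Ct Z d → d * D = D * d := fun d hd => hd _ hDL
  rw [← hD]
  obtain ⟨w, hw⟩ : ∃ w : Pr Z → ℂ, ∀ φ, w φ = trace (D * φ.e) / trace φ.e :=
    ⟨fun φ => _, fun φ => rfl⟩
  have hwe : ∀ φ ψ : Pr Z, Eqv φ ψ → w φ = w ψ := by
    intro φ ψ h
    rw [hw, hw, h.trace hDc]
    have h1 := h.trace (X := 1) (fun c _ => by rw [mul_one, one_mul])
    rw [one_mul, one_mul] at h1
    rw [h1]
  have hwb : ∀ φ : Pr Z, w (M.bar φ) = -w φ := by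
    intro φ
    rw [hw, hw, M.trace_bar hDL, M.trace_e, M.trace_e, M.bar_bar, neg_div, add_comm]
  obtain ⟨c, hc⟩ : ∃ c, c = ∑ i, w (ε i) • (ε i).e := ⟨_, rfl⟩
  have hce : ∀ φ : Pr Z, c * φ.e = w φ • φ.e := by
    intro φ
    have h1 : φ.e = ∑ i, (ε i).e * φ.e := by rw [← Finset.sum_mul, f3, one_mul]
    nth_rewrite 2 [h1]
    rw [hc, Finset.sum_mul, Finset.smul_sum]
    refine Finset.sum_congr rfl fun i _ => ?_
    rw [Matrix.smul_mul]
    by_cases h : Eqv (ε i) φ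
    · rw [hwe _ _ h]
    · have h2 := M.eq_zero_of_not (ε := φ) (η := ε i) (fun h' => h h'.symm) φ.mem
      rw [mul_assoc, φ.idem] at h2
      rw [h2, smul_zero, smul_zero]
  have hcL : ∀ i, (ε i).e * c = w (ε i) • (ε i).e := by
    intro i
    rw [hc, Finset.mul_sum, Finset.sum_eq_single i]
    · rw [Matrix.mul_smul, (ε i).idem]
    · intro k _ hk
      rw [Matrix.mul_smul, f2 i k (Ne.symm hk), smul_zero]
    · intro h
      exact absurd (Finset.mem_univ _) h
  have hcent : ∀ d, Ct Z d → c * d = d * c := by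
    intro d hd
    have h1 : ∀ c : Matrix (Fin g ⊕ Fin g) (Fin g ⊕ Fin g) ℂ,
        c = ∑ i, ∑ k, (ε i).e * c * (ε k).e := by
      intro c
      have e1 : ∀ i, ∑ k, (ε i).e * c * (ε k).e = (ε i).e * c := fun i => by
        rw [← Finset.mul_sum, f3, mul_one]
      rw [Finset.sum_congr rfl fun i _ => e1 i, ← Finset.sum_mul, f3, one_mul]
    rw [h1 (c * d), h1 (d * c)]
    refine Finset.sum_congr rfl fun i _ => Finset.sum_congr rfl fun k _ => ?_
    have e1 : (ε i).e * (c * d) * (ε k).e = w (ε i) • ((ε i).e * d * (ε k).e) := by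
      rw [← mul_assoc, hcL, Matrix.smul_mul, Matrix.smul_mul]
    have e2 : (ε i).e * (d * c) * (ε k).e = w (ε k) • ((ε i).e * d * (ε k).e) := by
      rw [mul_assoc, mul_assoc d, hce, Matrix.mul_smul, Matrix.mul_smul, mul_assoc]
    rw [e1, e2]
    by_cases h : Eqv (ε k) (ε i)
    · rw [hwe _ _ h]
    · rw [M.eq_zero_of_not h hd, smul_zero, smul_zero]
  have hsumb : ∑ i, (M.bar (ε i)).e = 1 := by
    have h1 : ∑ i, (M.bar (ε i)).e = -(Om g ℂ * (∑ i, (ε i).e)ᵀ * Om g ℂ) := by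
      rw [transpose_sum, Finset.mul_sum, Finset.sum_mul, ← Finset.sum_neg_distrib]
      exact Finset.sum_congr rfl fun i _ => M.bar_e (ε i)
    rw [h1, f3, transpose_one, mul_one, Om_sq, neg_neg]
  have hcsp : cᵀ * Om g ℂ + Om g ℂ * c = 0 := by
    have h1 : cᵀ * Om g ℂ = Om g ℂ * ∑ i, w (ε i) • (M.bar (ε i)).e := by
      rw [hc, transpose_sum, Finset.sum_mul, Finset.mul_sum]
      refine Finset.sum_congr rfl fun i _ => ?_
      rw [transpose_smul, Matrix.smul_mul, M.e_Om, Matrix.mul_smul]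
    have h2 : ∑ i, w (ε i) • (M.bar (ε i)).e = -c := by
      have h3 : c = ∑ i, c * (M.bar (ε i)).e := by rw [← Finset.mul_sum, hsumb, mul_one]
      rw [h3, ← Finset.sum_neg_distrib]
      refine Finset.sum_congr rfl fun i _ => ?_
      rw [hce, hwb, neg_smul, neg_neg]
    rw [h1, h2, mul_neg, neg_add_cancel]
  have hmem : D - c ∈ LZ Z := by
    refine memtr g Z M hcop hsep (D - c) ?_ ?_ ?_
    · intro d hd
      rw [sub_mul, mul_sub, hDc d hd, hcent d hd]
    · have h2 := M.sp_L hDL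
      rw [transpose_sub, sub_mul, mul_sub]
      have h3 : Dᵀ * Om g ℂ - cᵀ * Om g ℂ + (Om g ℂ * D - Om g ℂ * c) =
          (Dᵀ * Om g ℂ + Om g ℂ * D) - (cᵀ * Om g ℂ + Om g ℂ * c) := by abel
      rw [h3, hcsp, h2, sub_zero]
    · intro φ
      rw [sub_mul, trace_sub, hce, trace_smul, smul_eq_mul, hw,
        div_mul_cancel₀ _ (M.trace_ne φ), sub_self]
  refine ⟨c, ?_, fun φ => ?_⟩
  · have h1 : c = D - (D - c) := by abel
    rw [h1]
    exact Submodule.sub_mem _ hDL hmem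
  · rw [hce, hw]

end Pool.Agent.Q211.WT
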