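import Mathlib
import Pool.Agent.Q180.WT.StmB

/-!
# Project WT: elliptic curves without complex multiplication
-/

namespace Pool.Agent.Q211.WT

open Matrix Module Pool.Agent.H204R3.CM Pool.Agent.H204R3.SP Pool.Agent.W437.HC
  Pool.Agent.W437.HD Pool.Agent.W437.HP
open Pool.Agent.Q60.D3 (Comm)

/-- The entries of commuting matrices. -/
theorem entries2 {X Y : Matrix (Fin 1 ⊕ Fin 1) (Fin 1 ⊕ Fin 1) ℂ} :
    X * Y = Y * X ↔
      (X (Sum.inl 0) (Sum.inr 0) * Y (Sum.inr 0) (Sum.inl 0) =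
        Y (Sum.inl 0) (Sum.inr 0) * X (Sum.inr 0) (Sum.inl 0) ∧
      Y (Sum.inl 0) (Sum.inr 0) * (X (Sum.inl 0) (Sum.inl 0) - X (Sum.inr 0) (Sum.inr 0)) =
        X (Sum.inl 0) (Sum.inr 0) * (Y (Sum.inl 0) (Sum.inl 0) - Y (Sum.inr 0) (Sum.inr 0)) ∧
      Y (Sum.inr 0) (Sum.inl 0) * (X (Sum.inl 0) (Sum.inl 0) - X (Sum.inr 0) (Sum.inr 0)) =
        X (Sum.inr 0) (Sum.inl 0) * (Y (Sum.inl 0) (Sum.inl 0) - Y (Sum.inr 0) (Sum.inr 0))) := by
  have e : ∀ (U V : Matrix (Fin 1 ⊕ Fin 1) (Fin 1 ⊕ Fin 1) ℂ) (i j), (U * V) i j =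
      U i (Sum.inl 0) * V (Sum.inl 0) j + U i (Sum.inr 0) * V (Sum.inr 0) j := by
    intro U V i j
    rw [Matrix.mul_apply, Fintype.sum_sum_type, Fin.sum_univ_one, Fin.sum_univ_one]
  constructor
  · intro h
    have h1 := congrFun (congrFun h (Sum.inl 0)) (Sum.inl 0)
    have h2 := congrFun (congrFun h (Sum.inl 0)) (Sum.inr 0)
    have h3 := congrFun (congrFun h (Sum.inr 0)) (Sum.inl 0)
    rw [e, e] at h1 h2 h3
    refine ⟨by linear_combination h1, by linear_combination h2, by linear_combination -h3⟩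
  · rintro ⟨h1, h2, h3⟩
    ext i j
    rw [e, e]
    rcases i with i | i <;> rcases j with j | j <;>
      rw [Subsingleton.elim i 0, Subsingleton.elim j 0]
    · linear_combination h1
    · linear_combination h2
    · linear_combination -h3
    · linear_combination -h1

/-- A rational matrix which commutes with the Hodge operator of an elliptic curve without complex
multiplication is scalar. -/
theorem ell_scalar {g : ℕ} (hg : g = 1) (Z : Matrix (Fin g) (Fin g) ℂ) (hC : ¬ Comm Z)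
    (ψ : Matrix (Fin g ⊕ Fin g) (Fin g ⊕ Fin g) ℚ) (h : cK ℂ ψ * DZ Z = DZ Z * cK ℂ ψ) :
    ∃ a : ℚ, ψ = a • (1 : Matrix (Fin g ⊕ Fin g) (Fin g ⊕ Fin g) ℚ) := by
  subst hg
  by_contra hns
  apply hC
  intro σ
  have hσ : cK ℂ ψ * (DZ Z).map σ = (DZ Z).map σ * cK ℂ ψ := by
    have h1 := congrArg (fun Y : Matrix _ _ ℂ => Y.map (σ : ℂ →+* ℂ)) h
    simp only [Matrix.map_mul] at h1
    have h2 : (cK ℂ ψ).map (σ : ℂ →+* ℂ) = cK ℂ ψ := by
      ext i j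
      simp [cK]
    rw [h2] at h1
    exact h1
  rw [entries2] at h hσ ⊢
  obtain ⟨D, hD⟩ : ∃ D, D = DZ Z := ⟨_, rfl⟩
  obtain ⟨D', hD'⟩ : ∃ D', D' = (DZ Z).map σ := ⟨_, rfl⟩
  rw [← hD] at h ⊢
  rw [← hD] at hD'
  rw [← hD, ← hD'] at hσ
  rw [← hD']
  obtain ⟨a1, a2, a3⟩ := h
  obtain ⟨b1, b2, b3⟩ := hσ
  have hcast : ∀ i j, cK ℂ ψ i j = ((ψ i j : ℚ) : ℂ) := fun i j => rfl
  by_cases hq : cK ℂ ψ (Sum.inl 0) (Sum.inr 0) = 0
  · by_cases hr : cK ℂ ψ (Sum.inr 0) (Sum.inl 0) = 0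
    · have hps : cK ℂ ψ (Sum.inl 0) (Sum.inl 0) - cK ℂ ψ (Sum.inr 0) (Sum.inr 0) ≠ 0 := by
        intro h0
        apply hns
        refine ⟨ψ (Sum.inl 0) (Sum.inl 0), ?_⟩
        have e1 : ψ (Sum.inl 0) (Sum.inr 0) = 0 := by
          rw [hcast] at hq
          exact_mod_cast hq
        have e2 : ψ (Sum.inr 0) (Sum.inl 0) = 0 := by
          rw [hcast] at hr
          exact_mod_cast hr
        have e3 : ψ (Sum.inl 0) (Sum.inl 0) = ψ (Sum.inr 0) (Sum.inr 0) := by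
          rw [hcast, hcast, sub_eq_zero] at h0
          exact_mod_cast h0
        ext i j
        rcases i with i | i <;> rcases j with j | j <;>
          rw [Subsingleton.elim i 0, Subsingleton.elim j 0]
        · simp
        · simp [e1]
        · simp [e2]
        · simp [e3]
      have c1 : D (Sum.inl 0) (Sum.inr 0) = 0 := by
        rw [hq, zero_mul] at a2
        exact (mul_eq_zero.1 a2).resolve_right hps
      have c2 : D (Sum.inr 0) (Sum.inl 0) = 0 := by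
        rw [hr, zero_mul] at a3
        exact (mul_eq_zero.1 a3).resolve_right hps
      have c3 : D' (Sum.inl 0) (Sum.inr 0) = 0 := by
        rw [hq, zero_mul] at b2
        exact (mul_eq_zero.1 b2).resolve_right hps
      have c4 : D' (Sum.inr 0) (Sum.inl 0) = 0 := by
        rw [hr, zero_mul] at b3
        exact (mul_eq_zero.1 b3).resolve_right hps
      rw [c1, c2, c3, c4]
      simp
    · obtain ⟨r, hrr⟩ : ∃ r, r = cK ℂ ψ (Sum.inr 0) (Sum.inl 0) := ⟨_, rfl⟩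
      rw [← hrr] at a1 a3 b1 b3 hr
      have g1 : D' (Sum.inl 0) (Sum.inr 0) * D (Sum.inr 0) (Sum.inl 0) =
          D (Sum.inl 0) (Sum.inr 0) * D' (Sum.inr 0) (Sum.inl 0) := by
        refine mul_left_cancel₀ hr ?_
        linear_combination (-D (Sum.inr 0) (Sum.inl 0)) * b1 + D' (Sum.inr 0) (Sum.inl 0) * a1
      refine ⟨g1, mul_left_cancel₀ hr ?_, mul_left_cancel₀ hr ?_⟩
      · linear_combination (-D (Sum.inl 0) (Sum.inr 0)) * b3 + D' (Sum.inl 0) (Sum.inr 0) * a3 -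
          (cK ℂ ψ (Sum.inl 0) (Sum.inl 0) - cK ℂ ψ (Sum.inr 0) (Sum.inr 0)) * g1
      · linear_combination D' (Sum.inr 0) (Sum.inl 0) * a3 - D (Sum.inr 0) (Sum.inl 0) * b3
  · obtain ⟨q, hqq⟩ : ∃ q, q = cK ℂ ψ (Sum.inl 0) (Sum.inr 0) := ⟨_, rfl⟩
    rw [← hqq] at a1 a2 b1 b2 hq
    have g1 : D' (Sum.inl 0) (Sum.inr 0) * D (Sum.inr 0) (Sum.inl 0) =
        D (Sum.inl 0) (Sum.inr 0) * D' (Sum.inr 0) (Sum.inl 0) := by
      refine mul_left_cancel₀ hq ?_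
      linear_combination D' (Sum.inl 0) (Sum.inr 0) * a1 - D (Sum.inl 0) (Sum.inr 0) * b1
    refine ⟨g1, mul_left_cancel₀ hq ?_, mul_left_cancel₀ hq ?_⟩
    · linear_combination (-D (Sum.inl 0) (Sum.inr 0)) * b2 + D' (Sum.inl 0) (Sum.inr 0) * a2
    · linear_combination (-D (Sum.inr 0) (Sum.inl 0)) * b2 + D' (Sum.inr 0) (Sum.inl 0) * a2 +
        (cK ℂ ψ (Sum.inl 0) (Sum.inl 0) - cK ℂ ψ (Sum.inr 0) (Sum.inr 0)) * g1

end Pool.Agent.Q211.WT
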