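import Mathlib
import Pool.Agent.Q180.WT.StmB
import Pool.Agent.Q211.WT.Ell

/-!
# Project WT: alignment of the places of a product
-/

set_option linter.unusedSectionVars false

namespace Pool.Agent.Q211.WT

open Matrix Module Pool.Agent.H204R3.CM Pool.Agent.H194R3.CM Pool.Agent.W437.HC
  Pool.Agent.W437.HD Pool.Agent.W437.HQ Pool.Agent.W437.HP
open Pool.Agent.Y4.H (LZ Ct D_mem_LZ Dσ_mem_LZ)
open Pool.Agent.Y4.K (Pol Pr mu Eqv Iso pr)
open Pool.Agent.Q60.D3 (Comm)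
open Pool.Agent.Q180.WT (UZ sgb PB)

section

variable {ι : Type} [Fintype ι] [DecidableEq ι] {g : ι → ℕ}
    (Z : ∀ i, Matrix (Fin (g i)) (Fin (g i)) ℂ) (hZ : ∀ i, (Z i)ᵀ = Z i)
    (hpos : ∀ i, (imM (Z i)).PosDef)

theorem P_same (i : ι) : PB Z hZ hpos i * (PB Z hZ hpos i)ᵀ = 1 :=
  (blocksOf Z hZ hpos).sameK i

theorem P_off {i j : ι} (h : i ≠ j) : PB Z hZ hpos i * (PB Z hZ hpos j)ᵀ = 0 :=
  (blocksOf Z hZ hpos).offK h

theorem P_tot : ∑ i, (PB Z hZ hpos i)ᵀ * PB Z hZ hpos i = 1 :=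
  (blocksOf Z hZ hpos).totK

theorem P_com (i : ι) : PB Z hZ hpos i * DZ (bigD ℂ Z) = DZ (Z i) * PB Z hZ hpos i :=
  (blocksOf Z hZ hpos).com i

theorem P_comT (i : ι) : DZ (bigD ℂ Z) * (PB Z hZ hpos i)ᵀ = (PB Z hZ hpos i)ᵀ * DZ (Z i) := by
  calc DZ (bigD ℂ Z) * (PB Z hZ hpos i)ᵀ =
      (∑ j, (PB Z hZ hpos j)ᵀ * PB Z hZ hpos j) * (DZ (bigD ℂ Z) * (PB Z hZ hpos i)ᵀ) := by
        rw [P_tot, Matrix.one_mul]
  _ = (PB Z hZ hpos i)ᵀ * PB Z hZ hpos i * (DZ (bigD ℂ Z) * (PB Z hZ hpos i)ᵀ) := by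
    rw [Matrix.sum_mul, Finset.sum_eq_single i]
    · intro j _ hj
      rw [← Matrix.mul_assoc, Matrix.mul_assoc _ (PB Z hZ hpos j), P_com, ← Matrix.mul_assoc,
        Matrix.mul_assoc, P_off Z hZ hpos hj, Matrix.mul_zero]
    · intro h
      exact absurd (Finset.mem_univ _) h
  _ = _ := by
    rw [← Matrix.mul_assoc, Matrix.mul_assoc _ (PB Z hZ hpos i), P_com, ← Matrix.mul_assoc,
      Matrix.mul_assoc, P_same, Matrix.mul_one]

/-- The inclusion of a block. -/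
theorem inj_mul (i : ι) (x y : Matrix (Fin (g i) ⊕ Fin (g i)) (Fin (g i) ⊕ Fin (g i)) ℂ) :
    ((PB Z hZ hpos i)ᵀ * x * PB Z hZ hpos i) * ((PB Z hZ hpos i)ᵀ * y * PB Z hZ hpos i) =
      (PB Z hZ hpos i)ᵀ * (x * y) * PB Z hZ hpos i := by
  have h := P_same Z hZ hpos i
  calc ((PB Z hZ hpos i)ᵀ * x * PB Z hZ hpos i) * ((PB Z hZ hpos i)ᵀ * y * PB Z hZ hpos i) =
      (PB Z hZ hpos i)ᵀ * x * (PB Z hZ hpos i * (PB Z hZ hpos i)ᵀ) * y * PB Z hZ hpos i := by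
        simp only [Matrix.mul_assoc]
  _ = _ := by
    rw [h, Matrix.mul_one]
    simp only [Matrix.mul_assoc]

theorem inj_inj (i : ι) {x y : Matrix (Fin (g i) ⊕ Fin (g i)) (Fin (g i) ⊕ Fin (g i)) ℂ}
    (h : (PB Z hZ hpos i)ᵀ * x * PB Z hZ hpos i = (PB Z hZ hpos i)ᵀ * y * PB Z hZ hpos i) :
    x = y := by
  have h1 := congrArg (fun W => PB Z hZ hpos i * W * (PB Z hZ hpos i)ᵀ) h
  have h2 : ∀ x : Matrix (Fin (g i) ⊕ Fin (g i)) (Fin (g i) ⊕ Fin (g i)) ℂ,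
      PB Z hZ hpos i * ((PB Z hZ hpos i)ᵀ * x * PB Z hZ hpos i) *
      (PB Z hZ hpos i)ᵀ = x := by
    intro x
    calc PB Z hZ hpos i * ((PB Z hZ hpos i)ᵀ * x * PB Z hZ hpos i) * (PB Z hZ hpos i)ᵀ =
        (PB Z hZ hpos i * (PB Z hZ hpos i)ᵀ) * x * (PB Z hZ hpos i * (PB Z hZ hpos i)ᵀ) := by
          simp only [Matrix.mul_assoc]
    _ = x := by rw [P_same, Matrix.one_mul, Matrix.mul_one]
  simp only [h2] at h1
  exact h1

theorem trace_inj (i : ι) (x : Matrix (Fin (g i) ⊕ Fin (g i)) (Fin (g i) ⊕ Fin (g i)) ℂ) :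
    trace ((PB Z hZ hpos i)ᵀ * x * PB Z hZ hpos i) = trace x := by
  rw [trace_mul_comm, ← Matrix.mul_assoc, P_same, Matrix.one_mul]

/-- Endomorphisms of a block are endomorphisms of the product. -/
theorem Ct_inj (M : Pol (bigD ℂ Z)) (i : ι)
    (ψ : Matrix (Fin (g i) ⊕ Fin (g i)) (Fin (g i) ⊕ Fin (g i)) ℚ)
    (h : cK ℂ ψ * DZ (Z i) = DZ (Z i) * cK ℂ ψ) :
    Ct (bigD ℂ Z) ((PB Z hZ hpos i)ᵀ * cK ℂ ψ * PB Z hZ hpos i) := by
  have h1 : (PB Z hZ hpos i)ᵀ * cK ℂ ψ * PB Z hZ hpos i =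
      cq (((blocksOf Z hZ hpos).P i)ᵀ * ψ * (blocksOf Z hZ hpos).P i) := by
    change _ = cK ℂ (((blocksOf Z hZ hpos).P i)ᵀ * ψ * (blocksOf Z hZ hpos).P i)
    rw [cK_mul, cK_mul, cK_transpose]
  rw [h1]
  refine M.Ct_of_endo (endo_of_comm M.isUnit ?_)
  rw [← h1]
  calc (PB Z hZ hpos i)ᵀ * cK ℂ ψ * PB Z hZ hpos i * DZ (bigD ℂ Z) =
      (PB Z hZ hpos i)ᵀ * cK ℂ ψ * (PB Z hZ hpos i * DZ (bigD ℂ Z)) := by
        simp only [Matrix.mul_assoc]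
  _ = (PB Z hZ hpos i)ᵀ * (cK ℂ ψ * DZ (Z i)) * PB Z hZ hpos i := by
    rw [P_com]
    simp only [Matrix.mul_assoc]
  _ = ((PB Z hZ hpos i)ᵀ * DZ (Z i)) * cK ℂ ψ * PB Z hZ hpos i := by
    rw [h]
    simp only [Matrix.mul_assoc]
  _ = _ := by
    rw [← P_comT]
    simp only [Matrix.mul_assoc]

/-- Primitive idempotents of the blocks. -/
theorem mkPr (M : Pol (bigD ℂ Z)) (i : ι)
    (e : Matrix (Fin (g i) ⊕ Fin (g i)) (Fin (g i) ⊕ Fin (g i)) ℂ) (h1 : e * e = e) (h0 : e ≠ 0)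
    (ψ : Matrix (Fin (g i) ⊕ Fin (g i)) (Fin (g i) ⊕ Fin (g i)) ℚ)
    (hψ : cK ℂ ψ * DZ (Z i) = DZ (Z i) * cK ℂ ψ) (α γ : ℂ)
    (he : e = α • (1 : Matrix (Fin (g i) ⊕ Fin (g i)) (Fin (g i) ⊕ Fin (g i)) ℂ) + γ • cK ℂ ψ)
    (h3 : ∀ ψ : Matrix (Fin (g i) ⊕ Fin (g i)) (Fin (g i) ⊕ Fin (g i)) ℚ,
      cK ℂ ψ * DZ (Z i) = DZ (Z i) * cK ℂ ψ → ∃ lam : ℂ, e * cK ℂ ψ * e = lam • e) :
    ∃ E : Pr (bigD ℂ Z), E.e = (PB Z hZ hpos i)ᵀ * e * PB Z hZ hpos i := by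
  refine ⟨⟨(PB Z hZ hpos i)ᵀ * e * PB Z hZ hpos i, ?_, ?_, ?_, ?_⟩, rfl⟩
  · intro X hX
    have e1 := Ct_inj Z hZ hpos M i ψ hψ X hX
    have e2 := Ct_inj Z hZ hpos M i 1 (by rw [cK_one, Matrix.one_mul, Matrix.mul_one]) X hX
    rw [cK_one] at e2
    have e3 : (PB Z hZ hpos i)ᵀ * e * PB Z hZ hpos i =
        α • ((PB Z hZ hpos i)ᵀ * (1 : Matrix (Fin (g i) ⊕ Fin (g i)) (Fin (g i) ⊕ Fin (g i)) ℂ) *
        PB Z hZ hpos i) +
          γ • ((PB Z hZ hpos i)ᵀ * cK ℂ ψ * PB Z hZ hpos i) := by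
      rw [he, Matrix.mul_add, Matrix.add_mul, Matrix.mul_smul, Matrix.smul_mul, Matrix.mul_smul,
        Matrix.smul_mul]
    rw [e3, Matrix.add_mul, Matrix.mul_add, Matrix.smul_mul, Matrix.smul_mul, Matrix.mul_smul,
      Matrix.mul_smul, e1, e2]
  · rw [inj_mul, h1]
  · intro h
    apply h0
    refine inj_inj Z hZ hpos i ?_
    rw [h, Matrix.mul_zero, Matrix.zero_mul]
  · refine M.Ct_induction ?_ ?_ ?_ ?_
    · intro ψ' N hN
      have h4 := endo_comm M.isUnit hN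
      obtain ⟨ψ'', hψ''⟩ : ∃ ψ'' : Matrix (Fin (g i) ⊕ Fin (g i)) (Fin (g i) ⊕ Fin (g i)) ℚ,
          ψ'' = (blocksOf Z hZ hpos).P i * ψ' * ((blocksOf Z hZ hpos).P i)ᵀ := ⟨_, rfl⟩
      have h5 : cK ℂ ψ'' = PB Z hZ hpos i * cq ψ' * (PB Z hZ hpos i)ᵀ := by
        rw [hψ'', cK_mul, cK_mul, cK_transpose]
        rfl
      obtain ⟨lam, hlam⟩ := h3 ψ'' (by
        rw [h5]
        calc PB Z hZ hpos i * cq ψ' * (PB Z hZ hpos i)ᵀ * DZ (Z i) =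
            PB Z hZ hpos i * cq ψ' * ((PB Z hZ hpos i)ᵀ * DZ (Z i)) := by
              simp only [Matrix.mul_assoc]
        _ = PB Z hZ hpos i * (cq ψ' * DZ (bigD ℂ Z)) * (PB Z hZ hpos i)ᵀ := by
          rw [← P_comT]
          simp only [Matrix.mul_assoc]
        _ = (PB Z hZ hpos i * DZ (bigD ℂ Z)) * cq ψ' * (PB Z hZ hpos i)ᵀ := by
          rw [h4]
          simp only [Matrix.mul_assoc]
        _ = _ := by
          rw [P_com]
          simp only [Matrix.mul_assoc])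
      refine ⟨lam, ?_⟩
      rw [h5] at hlam
      calc (PB Z hZ hpos i)ᵀ * e * PB Z hZ hpos i * cq ψ' *
            ((PB Z hZ hpos i)ᵀ * e * PB Z hZ hpos i) =
          (PB Z hZ hpos i)ᵀ * (e * (PB Z hZ hpos i * cq ψ' * (PB Z hZ hpos i)ᵀ) * e) *
            PB Z hZ hpos i := by simp only [Matrix.mul_assoc]
      _ = _ := by rw [hlam, Matrix.mul_smul, Matrix.smul_mul]
    · exact ⟨0, by rw [Matrix.mul_zero, Matrix.zero_mul, zero_smul]⟩
    · rintro X Y ⟨l, hl⟩ ⟨l', hl'⟩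
      exact ⟨l + l', by rw [Matrix.mul_add, Matrix.add_mul, hl, hl', add_smul]⟩
    · rintro c X ⟨l, hl⟩
      exact ⟨c * l, by rw [Matrix.mul_smul, Matrix.smul_mul, hl, smul_smul]⟩

/-- The multiplicity. -/
theorem two_mu (M : Pol (bigD ℂ Z)) (i : ι)
    (e : Matrix (Fin (g i) ⊕ Fin (g i)) (Fin (g i) ⊕ Fin (g i)) ℂ) (E : Pr (bigD ℂ Z))
    (hE : E.e = (PB Z hZ hpos i)ᵀ * e * PB Z hZ hpos i) :
    2 * (mu E : ℂ) = trace e + trace (DZ (Z i) * e) := by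
  rw [← M.trace_pr]
  unfold pr
  rw [trace_smul, smul_eq_mul, ← mul_assoc, mul_inv_cancel₀ two_ne_zero, one_mul, hE,
    Matrix.add_mul, Matrix.one_mul, trace_add, trace_inj]
  congr 1
  have h1 : DZ (bigD ℂ Z) * ((PB Z hZ hpos i)ᵀ * e * PB Z hZ hpos i) =
      (PB Z hZ hpos i)ᵀ * (DZ (Z i) * e) * PB Z hZ hpos i := by
    rw [← Matrix.mul_assoc, ← Matrix.mul_assoc, P_comT]
    simp only [Matrix.mul_assoc]
  rw [h1, trace_inj]

theorem sum_mu (M : Pol (bigD ℂ Z)) (i : ι)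
    (e : Matrix (Fin (g i) ⊕ Fin (g i)) (Fin (g i) ⊕ Fin (g i)) ℂ) (E : Pr (bigD ℂ Z))
    (hE : E.e = (PB Z hZ hpos i)ᵀ * e * PB Z hZ hpos i) :
    (mu E : ℂ) + (mu (M.bar E) : ℂ) = trace e := by
  have h1 := M.trace_e E
  rw [hE, trace_inj] at h1
  rw [h1]
  push_cast
  rfl

end

/-- The idempotents of the eigenspaces. -/
theorem uz_idem (huza : Pool.Agent.Q180.WT.S_uza) {g : ℕ} {Z : Matrix (Fin g) (Fin g) ℂ}
    (hZ : Zᵀ = Z) (hpos : (imM Z).PosDef) (K : UZ Z) (β : Bool) :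
    (K.bm β * K.cm β) * (K.bm β * K.cm β) = K.bm β * K.cm β ∧
    (∃ γ : ℂ, K.bm β * K.cm β =
      (2 : ℂ)⁻¹ • (1 : Matrix (Fin g ⊕ Fin g) (Fin g ⊕ Fin g) ℂ) + γ • cK ℂ K.φ) ∧
    (∀ ψ : Matrix (Fin g ⊕ Fin g) (Fin g ⊕ Fin g) ℚ, cK ℂ ψ * DZ Z = DZ Z * cK ℂ ψ →
      ∃ lam : ℂ, (K.bm β * K.cm β) * cK ℂ ψ * (K.bm β * K.cm β) = lam • (K.bm β * K.cm β)) ∧
    trace (K.bm β * K.cm β) = (g : ℂ) ∧
    trace (DZ Z * (K.bm β * K.cm β)) = ((sgb β : ℤ) : ℂ) * ((K.sum : ℤ) : ℂ) := by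
  obtain ⟨h1, h2, h3, h4, h5, h6, h7, h8⟩ := huza g Z hZ hpos K
  have hidem : (K.bm β * K.cm β) * (K.bm β * K.cm β) = K.bm β * K.cm β := by
    calc (K.bm β * K.cm β) * (K.bm β * K.cm β) = K.bm β * (K.cm β * K.bm β) * K.cm β := by
          simp only [Matrix.mul_assoc]
    _ = _ := by rw [h1, Matrix.mul_one]
  have hd : K.d ≠ 0 := K.hd.ne_zero
  have hμ0 : K.μ ≠ 0 := by
    intro h
    have h9 := K.hμ
    rw [h, mul_zero] at h9
    have h10 : (K.d : ℂ) = 0 := by linear_combination h9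
    exact hd (by exact_mod_cast h10)
  have hs : ((sgb β : ℤ) : ℂ) * ((sgb β : ℤ) : ℂ) = 1 := by
    cases β <;> simp [sgb]
  have hs0 : ((sgb β : ℤ) : ℂ) * K.μ ≠ 0 := by
    refine mul_ne_zero ?_ hμ0
    intro h
    rw [h, zero_mul] at hs
    exact zero_ne_one hs
  refine ⟨hidem, ?_, ?_, ?_, ?_⟩
  · refine ⟨(2 : ℂ)⁻¹ * (((sgb β : ℤ) : ℂ) * K.μ)⁻¹, ?_⟩
    have e1 : K.bm β * K.cm β + K.bm (!β) * K.cm (!β) = 1 := by
      rw [← h3, Fintype.sum_bool]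
      cases β
      · rw [add_comm]
        rfl
      · rfl
    have e2 : cK ℂ K.φ = (((sgb β : ℤ) : ℂ) * K.μ) • (K.bm β * K.cm β) -
        (((sgb β : ℤ) : ℂ) * K.μ) • (K.bm (!β) * K.cm (!β)) := by
      calc cK ℂ K.φ = cK ℂ K.φ * (K.bm β * K.cm β + K.bm (!β) * K.cm (!β)) := by
            rw [e1, Matrix.mul_one]
      _ = (cK ℂ K.φ * K.bm β) * K.cm β + (cK ℂ K.φ * K.bm (!β)) * K.cm (!β) := by
        rw [Matrix.mul_add, Matrix.mul_assoc, Matrix.mul_assoc]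
      _ = _ := by
        rw [h5, h5, Matrix.smul_mul, Matrix.smul_mul, sub_eq_add_neg, ← neg_smul]
        congr 2
        cases β <;> simp [sgb]
    have e3 : K.bm (!β) * K.cm (!β) = 1 - K.bm β * K.cm β := by
      rw [← e1]
      abel
    rw [e3, smul_sub] at e2
    obtain ⟨t, ht⟩ : ∃ t, t = ((sgb β : ℤ) : ℂ) * K.μ := ⟨_, rfl⟩
    rw [← ht] at e2 hs0 ⊢
    rw [e2, smul_sub, smul_sub, smul_smul, smul_smul]
    have e4 : (2 : ℂ)⁻¹ * t⁻¹ * t = (2 : ℂ)⁻¹ := by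
      rw [mul_assoc, inv_mul_cancel₀ hs0, mul_one]
    rw [e4]
    have e5 : K.bm β * K.cm β = (2 : ℂ)⁻¹ • (K.bm β * K.cm β) + (2 : ℂ)⁻¹ • (K.bm β * K.cm β) := by
      rw [← add_smul]
      norm_num
    nth_rewrite 1 [e5]
    abel
  · intro ψ hψ
    obtain ⟨a, b, hab⟩ := K.gen ψ hψ
    have e1 : cK ℂ ψ = (a : ℂ) • (1 : Matrix (Fin g ⊕ Fin g) (Fin g ⊕ Fin g) ℂ) +
        (b : ℂ) • cK ℂ K.φ := by
      rw [hab]
      ext i j
      simp [cK, Matrix.one_apply, apply_ite]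
    refine ⟨(a : ℂ) + (b : ℂ) * (((sgb β : ℤ) : ℂ) * K.μ), ?_⟩
    have e2 : cK ℂ K.φ * (K.bm β * K.cm β) =
        (((sgb β : ℤ) : ℂ) * K.μ) • (K.bm β * K.cm β) := by
      rw [← Matrix.mul_assoc, h5, Matrix.smul_mul]
    rw [Matrix.mul_assoc, e1, Matrix.add_mul, Matrix.smul_mul, Matrix.smul_mul, e2,
      Matrix.one_mul, Matrix.mul_add, Matrix.mul_smul, Matrix.mul_smul, Matrix.mul_smul, hidem,
      smul_smul, ← add_smul]
  · rw [trace_mul_comm, h1, trace_one, Fintype.card_fin]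
  · have e1 : trace (DZ Z * (K.bm β * K.cm β)) = trace ((K.cm β * DZ Z) * K.bm β) := by
      rw [← Matrix.mul_assoc, trace_mul_comm, Matrix.mul_assoc]
    rw [e1, h6, Matrix.mul_assoc, h1, Matrix.mul_one, trace_diagonal, ← Finset.mul_sum]
    congr 1
    unfold UZ.sum
    push_cast
    rfl

/-- The multiplicities of the eigenspaces. -/
theorem uz_mu (huza : Pool.Agent.Q180.WT.S_uza) {ι : Type} [Fintype ι] [DecidableEq ι] {g : ι → ℕ}
    (Z : ∀ i, Matrix (Fin (g i)) (Fin (g i)) ℂ) (hZ : ∀ i, (Z i)ᵀ = Z i)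
    (hpos : ∀ i, (imM (Z i)).PosDef) (M : Pol (bigD ℂ Z)) (i : ι) (K : UZ (Z i)) (β : Bool)
    (E : Pr (bigD ℂ Z)) (hE : E.e = (PB Z hZ hpos i)ᵀ * (K.bm β * K.cm β) * PB Z hZ hpos i)
    (hc : Nat.Coprime K.pos K.neg) : Nat.Coprime (mu E) (mu (M.bar E)) := by
  obtain ⟨-, -, -, h7, h8⟩ := uz_idem huza (hZ i) (hpos i) K β
  obtain ⟨-, -, -, -, -, -, h9, h10⟩ := huza _ _ (hZ i) (hpos i) K
  have e1 := two_mu Z hZ hpos M i _ E hE
  have e2 := sum_mu Z hZ hpos M i _ E hE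
  rw [h7, h8, h9] at e1
  rw [h7] at e2
  have hg : ((g i : ℕ) : ℂ) = ((K.pos : ℕ) : ℂ) + ((K.neg : ℕ) : ℂ) := by
    rw [← Nat.cast_add, h10]
  rw [hg] at e1 e2
  push_cast at e1
  cases β
  · have e3 : mu E = K.neg := by
      have : ((mu E : ℕ) : ℂ) = ((K.neg : ℕ) : ℂ) := by
        simp only [sgb] at e1
        push_cast at e1
        linear_combination (1 / 2) * e1
      exact_mod_cast this
    have e4 : mu (M.bar E) = K.pos := by
      have : ((mu (M.bar E) : ℕ) : ℂ) = ((K.pos : ℕ) : ℂ) := by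
        rw [e3] at e2
        linear_combination e2
      exact_mod_cast this
    rw [e3, e4]
    exact hc.symm
  · have e3 : mu E = K.pos := by
      have : ((mu E : ℕ) : ℂ) = ((K.pos : ℕ) : ℂ) := by
        simp only [sgb] at e1
        push_cast at e1
        linear_combination (1 / 2) * e1
      exact_mod_cast this
    have e4 : mu (M.bar E) = K.neg := by
      have : ((mu (M.bar E) : ℕ) : ℂ) = ((K.neg : ℕ) : ℂ) := by
        rw [e3] at e2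
        linear_combination e2
      exact_mod_cast this
    rw [e3, e4]
    exact hc

/-- **Alignment** of the places of a product. -/
theorem aln (huza : Pool.Agent.Q180.WT.S_uza) : Pool.Agent.Q180.WT.S_aln := by
  intro ι _ _ g Z hZ hpos Ok hcop hcase M
  -- the two kinds of primitive idempotents
  have hK : ∀ (i : ι) (K : UZ (Z i)) (β : Bool), Ok i K → ∃ E : Pr (bigD ℂ Z),
      E.e = (PB Z hZ hpos i)ᵀ * (K.bm β * K.cm β) * PB Z hZ hpos i := by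
    intro i K β hOk
    obtain ⟨h1, ⟨γ, h2⟩, h3, h4, -⟩ := uz_idem huza (hZ i) (hpos i) K β
    refine mkPr Z hZ hpos M i _ h1 ?_ K.φ K.com _ γ h2 h3
    intro h0
    rw [h0, trace_zero] at h4
    obtain ⟨-, -, -, -, -, -, -, h10⟩ := huza _ _ (hZ i) (hpos i) K
    have h5 : g i = 0 := by exact_mod_cast h4.symm
    have h6 := hcop i K hOk
    have h7 : K.pos = 0 := by omega
    have h8 : K.neg = 0 := by omega
    rw [h7, h8] at h6
    exact absurd h6 (by decide)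
  have hL : ∀ i : ι, g i = 1 ∧ ¬ Comm (Z i) → ∃ E : Pr (bigD ℂ Z),
      E.e = (PB Z hZ hpos i)ᵀ * (1 : Matrix (Fin (g i) ⊕ Fin (g i)) (Fin (g i) ⊕ Fin (g i)) ℂ) *
        PB Z hZ hpos i := by
    rintro i ⟨hg, hC⟩
    refine mkPr Z hZ hpos M i 1 (Matrix.mul_one _) ?_ 1
      (by rw [cK_one, Matrix.one_mul, Matrix.mul_one]) 1 0 (by rw [one_smul, zero_smul, add_zero]) ?_
    · intro h0
      have h1 := congrArg trace h0
      rw [trace_one, trace_zero, Fintype.card_sum, Fintype.card_fin, hg] at h1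
      norm_num at h1
    · intro ψ hψ
      obtain ⟨a, ha⟩ := ell_scalar hg (Z i) hC ψ hψ
      refine ⟨(a : ℂ), ?_⟩
      rw [Matrix.one_mul, Matrix.mul_one, ha]
      ext x y
      by_cases hxy : x = y <;> simp [cK, Matrix.one_apply, hxy]
  -- every place is one of them
  have hall : ∀ φ : Pr (bigD ℂ Z),
      (∃ (i : ι) (K : UZ (Z i)) (β : Bool) (E : Pr (bigD ℂ Z)), Ok i K ∧
        E.e = (PB Z hZ hpos i)ᵀ * (K.bm β * K.cm β) * PB Z hZ hpos i ∧ Eqv E φ) ∨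
      (∃ (i : ι) (E : Pr (bigD ℂ Z)), g i = 1 ∧
        E.e = (PB Z hZ hpos i)ᵀ * (1 : Matrix (Fin (g i) ⊕ Fin (g i)) (Fin (g i) ⊕ Fin (g i)) ℂ) *
        PB Z hZ hpos i ∧ Eqv E φ) := by
    intro φ
    by_contra hcon
    rw [not_or] at hcon
    obtain ⟨hc1, hc2⟩ := hcon
    push Not at hc1 hc2
    have horth : ∀ E : Pr (bigD ℂ Z), ¬ Eqv E φ → φ.e * E.e = 0 := by
      intro E h
      have h1 := M.eq_zero_of_not h φ.mem
      rw [φ.idem] at h1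
      exact h1
    apply φ.ne
    calc φ.e = φ.e * ∑ i, (PB Z hZ hpos i)ᵀ * PB Z hZ hpos i := by
          rw [P_tot, Matrix.mul_one]
    _ = 0 := by
      rw [Matrix.mul_sum]
      refine Finset.sum_eq_zero fun i _ => ?_
      rcases hcase i with ⟨K, hOk⟩ | h
      · obtain ⟨-, -, h3, -, -, -, -, -⟩ := huza _ _ (hZ i) (hpos i) K
        obtain ⟨E1, hE1⟩ := hK i K true hOk
        obtain ⟨E2, hE2⟩ := hK i K false hOk
        have e1 : (PB Z hZ hpos i)ᵀ * PB Z hZ hpos i = E1.e + E2.e := by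
          rw [hE1, hE2, ← Matrix.add_mul, ← Matrix.mul_add]
          rw [Fintype.sum_bool] at h3
          rw [h3, Matrix.mul_one]
        rw [e1, Matrix.mul_add, horth E1 (hc1 i K true E1 hOk hE1),
          horth E2 (hc1 i K false E2 hOk hE2), add_zero]
      · obtain ⟨E, hE⟩ := hL i h
        have e1 : (PB Z hZ hpos i)ᵀ * PB Z hZ hpos i = E.e := by
          rw [hE, Matrix.mul_one]
        rw [e1, horth E (hc2 i E h.1 hE)]
  -- the second kind is selfconjugate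
  have hbar : ∀ (i : ι) (E : Pr (bigD ℂ Z)), E.e = (PB Z hZ hpos i)ᵀ * (1 : Matrix (Fin (g i) ⊕ Fin (g i)) (Fin (g i) ⊕ Fin (g i)) ℂ) *
        PB Z hZ hpos i →
      M.bar E = E := by
    intro i E hE
    apply Pr.ext
    rw [M.bar_e, hE, Matrix.mul_one, transpose_mul, transpose_transpose]
    have h1 : PB Z hZ hpos i = pm g ℂ i := cK_pm ℂ i
    have h2 : Om (NB g) ℂ * ((pm g ℂ i)ᵀ * pm g ℂ i) = ((pm g ℂ i)ᵀ * pm g ℂ i) * Om (NB g) ℂ := by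
      unfold pm Om
      rw [fromBlocks_transpose, fromBlocks_multiply, fromBlocks_multiply, fromBlocks_multiply]
      simp
    rw [h1, h2, Matrix.mul_assoc _ (Om _ ℂ), Om_sq]
    simp
  have hcp : ∀ φ : Pr (bigD ℂ Z), Nat.Coprime (mu φ) (mu (M.bar φ)) := by
    intro φ
    rcases hall φ with ⟨i, K, β, E, hOk, hE, h⟩ | ⟨i, E, hg, hE, h⟩
    · rw [← M.mu_eqv h, ← M.mu_eqv (M.eqv_bar h)]
      exact uz_mu huza Z hZ hpos M i K β E hE (hcop i K hOk)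
    · rw [← M.mu_eqv h, ← M.mu_eqv (M.eqv_bar h)]
      have e2 := sum_mu Z hZ hpos M i _ E hE
      rw [hbar i E hE, trace_one, Fintype.card_sum, Fintype.card_fin, hg] at e2
      have e3 : mu E = 1 := by
        have : ((mu E : ℕ) : ℂ) = ((1 : ℕ) : ℂ) := by
          push_cast at e2 ⊢
          linear_combination (1 / 2) * e2
        exact_mod_cast this
      rw [hbar i E hE, e3]
      exact Nat.coprime_one_left 1
  refine ⟨?_, ?_, ?_⟩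
  · intro φ
    exact ⟨RingEquiv.refl ℂ, hcp _⟩
  · intro φ ψ _ _ hsum hne h σ
    rcases h σ with h1 | ⟨h1, -⟩
    · exact h1
    · exfalso
      apply hne
      have h2 := hcp (M.act σ φ)
      rw [← M.mu_act σ φ]
      rcases Nat.mul_eq_zero.1 h1 with h3 | h3
      · rw [h3] at h2 ⊢
        rw [Nat.coprime_zero_left] at h2
        rw [h2]
      · rw [h3] at h2 ⊢
        rw [Nat.coprime_zero_right] at h2
        rw [h2]
  · intro φ hφ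
    rcases hall φ with ⟨i, K, β, E, hOk, hE, a, c, h⟩ | ⟨i, E, hg, hE, h⟩
    · refine ⟨i, K, β, c, a, hOk, h.cb, h.ca, h.ab, ?_⟩
      rw [h.ba, hE]
    · exfalso
      apply hφ
      have h1 := M.eqv_bar h
      rw [hbar i E hE] at h1
      exact h.symm.trans h1

end Pool.Agent.Q211.WT
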